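import Mathlib

namespace Pool.Agent.Lib.MP_d40034_al

/-- The subgroup generated by all squares. -/
def sqs (G : Type*) [Group G] : Subgroup G := Subgroup.closure (Set.range fun g : G => g * g)

theorem sq_mem_sqs {G : Type*} [Group G] (g : G) : g * g ∈ sqs G :=
  Subgroup.subset_closure ⟨g, rfl⟩

theorem comm_mem_sqs {G : Type*} [Group G] (a b : G) : a * b * a⁻¹ * b⁻¹ ∈ sqs G := by
  have : a * b * a⁻¹ * b⁻¹ = (a * a) * ((a⁻¹ * b) * (a⁻¹ * b)) * (b⁻¹ * b⁻¹) := by group
  rw [this]
  exact mul_mem (mul_mem (sq_mem_sqs _) (sq_mem_sqs _)) (sq_mem_sqs _)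

theorem sq_mem_coatom {G : Type*} [Group G] [Finite G] (hG : IsPGroup 2 G) {M : Subgroup G}
    (hM : IsCoatom M) (g : G) : g * g ∈ M := by
  have : Fact (Nat.Prime 2) := ⟨Nat.prime_two⟩
  have : Group.IsNilpotent G := hG.isNilpotent
  have : M.Normal :=
    Subgroup.NormalizerCondition.normal_of_coatom M Group.normalizerCondition_of_isNilpotent hM
  by_contra h
  have htop : M ⊔ Subgroup.zpowers (g * g) = ⊤ := by
    apply hM.2
    refine lt_of_le_of_ne le_sup_left fun e => h ?_
    rw [e]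
    exact Subgroup.mem_sup_right (Subgroup.mem_zpowers _)
  have hg : g ∈ M ⊔ Subgroup.zpowers (g * g) := htop ▸ Subgroup.mem_top g
  have hg' : g ∈ ((M ⊔ Subgroup.zpowers (g * g) : Subgroup G) : Set G) := hg
  rw [Subgroup.normal_mul] at hg'
  obtain ⟨m, hm, z, ⟨k, rfl⟩, hmz⟩ := hg'
  let q : G →* G ⧸ M := QuotientGroup.mk' M
  have h1 : (q g * q g) ^ k = q g := by
    have := congrArg q hmz
    simp only [map_mul, map_zpow] at this
    have hm1 : q m = 1 := (QuotientGroup.eq_one_iff m).2 hm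
    rwa [hm1, one_mul] at this
  have h2 : q g ^ (2 * k - 1) = 1 := by
    rw [zpow_sub, zpow_mul, zpow_two, h1]
    simp
  obtain ⟨n, hn⟩ := hG g
  have h3 : q g ^ (2 ^ n) = 1 := by rw [← map_pow, hn, map_one]
  have d2 : (orderOf (q g) : ℤ) ∣ 2 * k - 1 := orderOf_dvd_iff_zpow_eq_one.2 h2
  have d3 : orderOf (q g) ∣ 2 ^ n := orderOf_dvd_of_pow_eq_one h3
  obtain ⟨j, -, hj⟩ := (Nat.dvd_prime_pow Nat.prime_two).1 d3
  have hj0 : j = 0 := by
    by_contra hj0
    have : (2 : ℤ) ∣ 2 * k - 1 := by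
      refine Dvd.dvd.trans ?_ d2
      rw [hj]
      push_cast
      exact dvd_pow_self 2 hj0
    omega
  rw [hj0, pow_zero, orderOf_eq_one_iff] at hj
  exact h (mul_mem ((QuotientGroup.eq_one_iff g).1 hj) ((QuotientGroup.eq_one_iff g).1 hj))

theorem eq_top_of_sup_sqs {G : Type*} [Group G] [Finite G] (hG : IsPGroup 2 G) {K : Subgroup G}
    (h : K ⊔ sqs G = ⊤) : K = ⊤ := by
  by_contra hK
  obtain ⟨M, hM, hKM⟩ := (eq_top_or_exists_le_coatom K).resolve_left hK
  have hs : sqs G ≤ M := by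
    rw [sqs, Subgroup.closure_le]
    rintro _ ⟨g, rfl⟩
    exact sq_mem_coatom hG hM g
  exact hM.1 (top_le_iff.1 (h ▸ sup_le hKM hs))

theorem exists_gens {G : Type*} [Group G] [Finite G] (n : ℕ) :
    ∀ L : Subgroup G, L.index = n →
      ∃ S : Finset G, 2 ^ S.card ≤ L.index ∧ Subgroup.closure (S : Set G) ⊔ L = ⊤ := by
  classical
  induction n using Nat.strong_induction_on with
  | _ n ih =>
    intro L hL
    by_cases hT : L = ⊤
    · exact ⟨∅, by simp [hT], by simp [hT]⟩
    · obtain ⟨g, hg⟩ : ∃ g, g ∉ L := by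
        by_contra hc
        push Not at hc
        exact hT (eq_top_iff.2 fun g _ => hc g)
      let L' := L ⊔ Subgroup.closure {g}
      have hle : L ≤ L' := le_sup_left
      have hgL' : g ∈ L' := Subgroup.mem_sup_right (Subgroup.subset_closure rfl)
      have hlt : L < L' := lt_of_le_of_ne hle fun e => hg (e ▸ hgL')
      have hi : L'.index < L.index := Subgroup.index_strictAnti hlt
      obtain ⟨c, hc⟩ : L'.index ∣ L.index := Subgroup.index_dvd_of_le hle
      have hc2 : 2 ≤ c := by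
        rcases c with _ | _ | c
        · rw [hc] at hi; simp at hi
        · rw [hc] at hi; simp at hi
        · omega
      obtain ⟨S, hS, hS'⟩ := ih L'.index (hL ▸ hi) L' rfl
      refine ⟨insert g S, ?_, ?_⟩
      · calc 2 ^ (insert g S).card ≤ 2 ^ (S.card + 1) :=
              Nat.pow_le_pow_right (by norm_num) (Finset.card_insert_le _ _)
          _ = 2 ^ S.card * 2 := pow_succ _ _
          _ ≤ L'.index * c := Nat.mul_le_mul hS hc2
          _ = L.index := hc.symm
      · rw [eq_top_iff, ← hS']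
        refine sup_le ?_ (sup_le le_sup_right ?_)
        · exact le_sup_of_le_left (Subgroup.closure_mono (by simp))
        · exact le_sup_of_le_left (Subgroup.closure_mono (by simp))

theorem two_pow_rank_le {G : Type*} [Group G] [Finite G] (hG : IsPGroup 2 G) :
    2 ^ Group.rank G ≤ (sqs G).index := by
  obtain ⟨S, h1, h2⟩ := exists_gens _ (sqs G) rfl
  exact (Nat.pow_le_pow_right (by norm_num) (Group.rank_le (eq_top_of_sup_sqs hG h2))).trans h1

theorem card_le_two_pow_rank {G Q : Type*} [Group G] [Finite G] [CommGroup Q] [Finite Q]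
    (f : G →* Q) (hf : Function.Surjective f) (hQ : ∀ q : Q, q ^ 2 = 1) :
    Nat.card Q ≤ 2 ^ Group.rank G :=
  (Nat.le_of_dvd (by positivity) (card_dvd_exponent_pow_rank' Q hQ)).trans
    (Nat.pow_le_pow_right (by norm_num) (Group.rank_le_of_surjective f hf))

end Pool.Agent.Lib.MP_d40034_al
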