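import Mathlib
import Pool.Agent.Lib.MP_d40034_al.Burnside

namespace Pool.Agent.Lib.MP_d40034_al

/-- Data for the construction: an elementary abelian 2-group acting on a ring in which 2 is
nilpotent, trivially modulo 2, such that the 2-torsion generates everything under halving. -/
structure Setup (A E : Type) [Ring A] [CommGroup E] where
  α : E → A →+* A
  α_one : ∀ x, α 1 x = x
  α_mul : ∀ s t x, α (s * t) x = α s (α t x)
  sq : ∀ t : E, t * t = 1
  nil : ∃ n : ℕ, (2 : A) ^ n = 0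
  triv : ∀ t x, ∃ w, α t x = x + 2 * w
  gen : ∀ K : AddSubgroup A, (∀ y ∈ K, ∀ t z, 2 * z = α t y - y → z ∈ K) → K = ⊤

variable {A E : Type} [Ring A] [CommGroup E]

theorem two_comm (x : A) : x * 2 = 2 * x := by noncomm_ring

theorem two_pow_comm (x : A) (k : ℕ) : x * 2 ^ k = 2 ^ k * x :=
  ((Commute.pow_right (show Commute x 2 from two_comm x) k)).eq

theorem Setup.isUnit (S : Setup A E) (x : A) : IsUnit (1 + 4 * x) := by
  obtain ⟨n, hn⟩ := S.nil
  have hc : Commute (2 : A) (2 * x) := by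
    show 2 * (2 * x) = 2 * x * 2
    noncomm_ring
  have : IsNilpotent (2 * (2 * x) : A) := hc.isNilpotent_mul_right ⟨n, hn⟩
  have e : (1 + 4 * x : A) = 1 + 2 * (2 * x) := by noncomm_ring
  rw [e]
  exact this.isUnit_one_add

@[ext]
structure Gp (S : Setup A E) where
  x : A
  t : E

namespace Gp
variable {S : Setup A E}

instance : Mul (Gp S) := ⟨fun g h => ⟨g.x + S.α g.t h.x + 4 * (g.x * S.α g.t h.x), g.t * h.t⟩⟩
instance : One (Gp S) := ⟨⟨0, 1⟩⟩
noncomputable instance : Inv (Gp S) :=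
  ⟨fun g => ⟨S.α g.t⁻¹ (-(Ring.inverse (1 + 4 * g.x) * g.x)), g.t⁻¹⟩⟩

@[simp] theorem mul_x (g h : Gp S) :
    (g * h).x = g.x + S.α g.t h.x + 4 * (g.x * S.α g.t h.x) := rfl
@[simp] theorem mul_t (g h : Gp S) : (g * h).t = g.t * h.t := rfl
@[simp] theorem one_x : (1 : Gp S).x = 0 := rfl
@[simp] theorem one_t : (1 : Gp S).t = 1 := rfl

noncomputable instance : Group (Gp S) :=
  Group.ofLeftAxioms
    (by
      intro a b c
      ext
      · simp only [mul_x, mul_t, S.α_mul, map_add, map_mul, map_ofNat]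
        noncomm_ring
      · simp only [mul_t, mul_assoc])
    (by
      intro a
      ext
      · simp [S.α_one]
      · simp)
    (by
      intro a
      ext
      · show S.α a.t⁻¹ (-(Ring.inverse (1 + 4 * a.x) * a.x)) + S.α a.t⁻¹ a.x +
          4 * (S.α a.t⁻¹ (-(Ring.inverse (1 + 4 * a.x) * a.x)) * S.α a.t⁻¹ a.x) = 0
        have h := Ring.inverse_mul_cancel _ (S.isUnit a.x)
        have e : -(Ring.inverse (1 + 4 * a.x) * a.x) + a.x +
            4 * (-(Ring.inverse (1 + 4 * a.x) * a.x) * a.x) =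
            (1 - Ring.inverse (1 + 4 * a.x) * (1 + 4 * a.x)) * a.x := by noncomm_ring
        rw [h, sub_self, zero_mul] at e
        have := congrArg (S.α a.t⁻¹) e
        simpa only [map_add, map_mul, map_ofNat, map_zero] using this
      · show a.t⁻¹ * a.t = 1
        simp)

def equivProd (S : Setup A E) : Gp S ≃ A × E where
  toFun g := (g.x, g.t)
  invFun p := ⟨p.1, p.2⟩
  left_inv _ := rfl
  right_inv _ := rfl

instance [Finite A] [Finite E] : Finite (Gp S) := Finite.of_equiv _ (equivProd S).symm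

/-- The projection to `E`. -/
def π (S : Setup A E) : Gp S →* E where
  toFun g := g.t
  map_one' := rfl
  map_mul' _ _ := rfl

/-- The embedding of the base. -/
def ι (S : Setup A E) (x : A) : Gp S := ⟨x, 1⟩

theorem ι_mul (x y : A) : ι S x * ι S y = ι S (x + y + 4 * (x * y)) := by
  ext <;> simp [ι, S.α_one]

theorem ι_inj {x y : A} (h : ι S x = ι S y) : x = y := congrArg Gp.x h

theorem eq_ι {g : Gp S} (h : g.t = 1) : g = ι S g.x := by
  ext <;> simp [ι, h]

def φ (x : A) : A := x + 2 * (x * x)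

theorem ι_sq (x : A) : ι S x * ι S x = ι S (2 * φ x) := by
  rw [ι_mul, φ]
  congr 1
  noncomm_ring

theorem φ_inj (S : Setup A E) : Function.Injective (φ : A → A) := by
  intro x y h
  obtain ⟨n, hn⟩ := S.nil
  have h1 : x - y = -2 * (x * (x - y) + (x - y) * y) := by
    have : x - y = (φ x - φ y) - 2 * (x * (x - y) + (x - y) * y) := by
      unfold φ
      noncomm_ring
    rw [h, sub_self] at this
    rw [neg_mul]
    exact this.trans (zero_sub _)
  have h2 : ∀ k : ℕ, ∃ w, x - y = 2 ^ k * w := by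
    intro k
    induction k with
    | zero => exact ⟨x - y, by simp⟩
    | succ k ih =>
      obtain ⟨w, hw⟩ := ih
      refine ⟨-(x * w + w * y), ?_⟩
      rw [h1, hw, ← mul_assoc x, two_pow_comm, pow_succ']
      noncomm_ring
  obtain ⟨w, hw⟩ := h2 n
  rw [hn, zero_mul] at hw
  exact sub_eq_zero.1 hw

theorem φ_surj [Finite A] (S : Setup A E) : Function.Surjective (φ : A → A) :=
  Finite.injective_iff_surjective.1 (φ_inj S)

theorem sq_eq (g : Gp S) : ∃ w, g * g = ι S (2 * w) := by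
  obtain ⟨w, hw⟩ := S.triv g.t g.x
  refine ⟨g.x + w + 2 * (g.x * S.α g.t g.x), ?_⟩
  ext
  · simp only [mul_x, ι]
    nth_rewrite 1 [hw]
    noncomm_ring
  · simp [ι, S.sq]

theorem isPGroup (S : Setup A E) : IsPGroup 2 (Gp S) := by
  intro g
  obtain ⟨n, hn⟩ := S.nil
  have h : ∀ k : ℕ, ∃ w, g ^ 2 ^ (k + 1) = ι S (2 ^ k * w) := by
    intro k
    induction k with
    | zero =>
      obtain ⟨w, hw⟩ := sq_eq g
      exact ⟨2 * w, by rw [← mul_assoc]; simpa [pow_two] using hw⟩
    | succ k ih =>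
      obtain ⟨w, hw⟩ := ih
      refine ⟨w + 2 * (w * (2 ^ k * w)), ?_⟩
      rw [pow_succ 2 (k + 1), pow_mul, pow_two, hw, ι_sq, φ, pow_succ' (2 : A) k]
      congr 1
      noncomm_ring
  obtain ⟨w, hw⟩ := h n
  refine ⟨n + 1, ?_⟩
  rw [hw, hn, zero_mul]
  rfl

/-- Doubling on `A`. -/
def dbl (A : Type) [Ring A] : A →+ A := AddMonoidHom.mulLeft 2

/-- The elementary abelian quotient. -/
def toQ (S : Setup A E) : Gp S →* Multiplicative (A ⧸ (dbl A).range) × E where
  toFun g := (Multiplicative.ofAdd (QuotientAddGroup.mk g.x), g.t)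
  map_one' := by simp
  map_mul' g h := by
    ext
    · obtain ⟨w, hw⟩ := S.triv g.t h.x
      simp only [mul_x, Prod.fst_mul, toAdd_mul, toAdd_ofAdd]
      rw [← QuotientAddGroup.mk_add, QuotientAddGroup.eq]
      refine ⟨-(w + 2 * (g.x * S.α g.t h.x)), ?_⟩
      simp only [dbl, AddMonoidHom.coe_mulLeft]
      nth_rewrite 2 [hw]
      noncomm_ring
    · rfl

theorem card_le_rank [Finite A] [Finite E] (S : Setup A E) :
    Nat.card (dbl A).ker * Nat.card E ≤ 2 ^ Group.rank (Gp S) := by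
  have h := card_le_two_pow_rank (toQ S) (by
    rintro ⟨q, t⟩
    obtain ⟨x, hx⟩ := QuotientAddGroup.mk_surjective (Multiplicative.toAdd q)
    exact ⟨⟨x, t⟩, Prod.ext (by simp [toQ, hx]) rfl⟩) (by
    rintro ⟨q, t⟩
    obtain ⟨x, hx⟩ := QuotientAddGroup.mk_surjective (Multiplicative.toAdd q)
    ext
    · simp only [Prod.pow_fst, Prod.fst_one, toAdd_pow, toAdd_one, ← hx]
      rw [← QuotientAddGroup.mk_nsmul, QuotientAddGroup.eq_zero_iff]
      exact ⟨x, by simp [dbl, two_mul]⟩
    · simp [pow_two, S.sq])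
  rw [Nat.card_prod] at h
  have h1 : Nat.card (Multiplicative (A ⧸ (dbl A).range)) = Nat.card (dbl A).ker := by
    have e1 : Nat.card (Multiplicative (A ⧸ (dbl A).range)) = (dbl A).range.index := rfl
    have e2 := (dbl A).range.index_mul_card
    have e3 := (dbl A).ker.card_mul_index
    rw [AddSubgroup.index_ker] at e3
    have e4 : 0 < Nat.card (dbl A).range := Nat.card_pos
    rw [e1]
    apply Nat.eq_of_mul_eq_mul_right e4
    rw [e2, e3]
  rwa [h1] at h

theorem eq_top_of_full [Finite A] [Finite E] (H : Subgroup (Gp S))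
    (h1 : ∀ t, ∃ x, (⟨x, t⟩ : Gp S) ∈ H)
    (h2 : ∀ z, ι S z * ι S z ∈ (sqs H).map H.subtype → ι S z ∈ H) : H = ⊤ := by
  let K : AddSubgroup A :=
    { carrier := {y | ∃ y0 w, ι S y0 ∈ H ∧ y = y0 + 2 * w}
      zero_mem' := ⟨0, 0, H.one_mem, by simp⟩
      add_mem' := by
        rintro _ _ ⟨a, v, ha, rfl⟩ ⟨b, w, hb, rfl⟩
        refine ⟨a + b + 4 * (a * b), v + w - 2 * (a * b), ?_, by noncomm_ring⟩
        rw [← ι_mul]
        exact H.mul_mem ha hb
      neg_mem' := by
        rintro _ ⟨a, v, ha, rfl⟩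
        exact ⟨a, -a - v, ha, by noncomm_ring⟩ }
  have hK : K = ⊤ := by
    apply S.gen
    rintro _ ⟨y0, w, hy0, rfl⟩ t z hz
    obtain ⟨w', hw'⟩ := S.triv t w
    obtain ⟨x, hx⟩ := h1 t
    let h : Gp S := ⟨x, t⟩
    let c : Gp S := h * ι S y0 * h⁻¹ * (ι S y0)⁻¹
    have hc : c ∈ (sqs H).map H.subtype :=
      ⟨_, comm_mem_sqs (⟨h, hx⟩ : H) ⟨ι S y0, hy0⟩, rfl⟩
    have hct : c.t = 1 := by
      have : π S c = 1 := by
        simp only [c, map_mul, map_inv]
        have : π S (ι S y0) = 1 := rfl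
        simp [this]
      exact this
    have hce : c * ι S y0 * h = h * ι S y0 := by simp [c]
    have hcx := congrArg Gp.x hce
    rw [eq_ι hct, ι_mul] at hcx
    simp only [mul_x, ι, h, S.α_one] at hcx
    obtain ⟨u, hu⟩ : ∃ u, c.x = S.α t y0 - y0 + 4 * u := by
      refine ⟨x * S.α t y0 - c.x * y0 - (c.x + y0 + 4 * (c.x * y0)) * x, ?_⟩
      have : c.x = (c.x + y0 + 4 * (c.x * y0) + x + 4 * ((c.x + y0 + 4 * (c.x * y0)) * x)) - y0 - x
          - 4 * (c.x * y0) - 4 * ((c.x + y0 + 4 * (c.x * y0)) * x) := by noncomm_ring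
      rw [hcx] at this
      refine this.trans ?_
      noncomm_ring
    obtain ⟨z', hz'⟩ := φ_surj S (z - 2 * w' + 2 * u)
    have hsq : ι S z' * ι S z' = c := by
      rw [ι_sq, hz', eq_ι hct, hu]
      congr 1
      rw [map_add, map_mul, map_ofNat, hw'] at hz
      have : 2 * (z - 2 * w' + 2 * u) = 2 * z - 4 * w' + 4 * u := by noncomm_ring
      rw [this, hz]
      noncomm_ring
    refine ⟨z', z' * z' + w' - u, h2 z' (hsq ▸ hc), ?_⟩
    have : z = φ z' + 2 * w' - 2 * u := by rw [hz']; noncomm_ring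
    rw [this, φ]
    noncomm_ring
  apply eq_top_of_sup_sqs (isPGroup S)
  rw [eq_top_iff]
  rintro g -
  obtain ⟨x0, hx0⟩ := h1 g.t
  let h : Gp S := ⟨x0, g.t⟩
  have ht : (h⁻¹ * g).t = 1 := by
    have : π S (h⁻¹ * g) = 1 := by
      rw [map_mul, map_inv]
      exact inv_mul_cancel g.t
    exact this
  obtain ⟨y0, w, hy0, hy⟩ : (h⁻¹ * g).x ∈ K := hK ▸ AddSubgroup.mem_top _
  let v : Gp S := (ι S y0)⁻¹ * (h⁻¹ * g)
  have hvt : v.t = 1 := by
    have : π S v = 1 := by
      have e1 : π S (ι S y0) = 1 := rfl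
      have e2 : π S (h⁻¹ * g) = 1 := ht
      simp only [v]
      rw [map_mul, map_inv, e1, e2]
      simp
    exact this
  have hv : ι S y0 * v = h⁻¹ * g := by simp [v]
  have hvx := congrArg Gp.x hv
  rw [eq_ι hvt, ι_mul, hy] at hvx
  simp only [ι] at hvx
  obtain ⟨z, hz⟩ := φ_surj S (w - 2 * (y0 * v.x))
  have hv2 : v = ι S z * ι S z := by
    rw [ι_sq, hz, eq_ι hvt]
    congr 1
    have : v.x = (y0 + v.x + 4 * (y0 * v.x)) - y0 - 4 * (y0 * v.x) := by noncomm_ring
    rw [hvx] at this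
    nth_rewrite 1 [this]
    noncomm_ring
  have hg : g = h * (ι S y0 * v) := by simp [v]
  rw [hg, hv2]
  exact mul_mem (Subgroup.mem_sup_left hx0)
    (mul_mem (Subgroup.mem_sup_left hy0) (Subgroup.mem_sup_right (sq_mem_sqs _)))

theorem card_Z_le [Finite A] [Finite E] (Q : Subgroup (Gp S)) :
    Nat.card {z : A // ι S z * ι S z ∈ Q} ≤ Nat.card (dbl A).ker * Nat.card Q := by
  classical
  rw [mul_comm, ← Nat.card_prod]
  let f : {z : A // ι S z * ι S z ∈ Q} → Q := fun z => ⟨_, z.2⟩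
  let b : Q → A := fun c => if h : ∃ z : A, ι S z * ι S z = c then h.choose else 0
  have hb : ∀ z, ι S (b (f z)) * ι S (b (f z)) = ι S z.1 * ι S z.1 := by
    intro z
    have h : ∃ z' : A, ι S z' * ι S z' = (f z : Gp S) := ⟨z.1, rfl⟩
    simp only [b, dif_pos h]
    exact h.choose_spec
  let g : {z : A // ι S z * ι S z ∈ Q} → Q × (dbl A).ker := fun z =>
    (f z, ⟨φ z.1 - φ (b (f z)), by
      have := hb z
      rw [ι_sq, ι_sq] at this
      have := ι_inj this
      simp only [AddMonoidHom.mem_ker, dbl, AddMonoidHom.coe_mulLeft]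
      rw [mul_sub, this, sub_self]⟩)
  apply Nat.card_le_card_of_injective g
  intro z z' h
  have h1 : f z = f z' := congrArg Prod.fst h
  have h2 : φ z.1 - φ (b (f z)) = φ z'.1 - φ (b (f z')) :=
    congrArg (fun p : Q × (dbl A).ker => (p.2 : A)) h
  rw [h1, sub_left_inj] at h2
  exact Subtype.ext (φ_inj S h2)

theorem rank_lt [Finite A] [Finite E] (H : Subgroup (Gp S)) (hH : H ≠ ⊤) :
    Group.rank H < Group.rank (Gp S) := by
  classical
  let Q := (sqs H).map H.subtype
  have hQ : Nat.card Q = Nat.card (sqs H) := Subgroup.card_map_of_injective H.subtype_injective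
  let p : H →* E := (π S).comp H.subtype
  let H0 : Set A := {x | ι S x ∈ H}
  let Z : Set A := {z | ι S z * ι S z ∈ Q}
  have hsub : H0 ⊆ Z := fun x hx => ⟨_, sq_mem_sqs (⟨ι S x, hx⟩ : H), rfl⟩
  have hker : Nat.card p.ker = H0.ncard := by
    rw [← Nat.card_coe_set_eq]
    refine Nat.card_congr
      { toFun := fun g => ⟨g.1.1.x, by
          have : g.1.1.t = 1 := g.2
          show ι S _ ∈ H
          rw [← eq_ι this]
          exact g.1.2⟩
        invFun := fun x => ⟨⟨ι S x.1, x.2⟩, rfl⟩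
        left_inv := fun g => Subtype.ext (Subtype.ext (eq_ι g.2).symm)
        right_inv := fun x => rfl }
  have hcard : Nat.card H = H0.ncard * Nat.card p.range := by
    rw [← hker, ← Subgroup.index_ker, Subgroup.card_mul_index]
  have hZ : Z.ncard ≤ Nat.card (dbl A).ker * Nat.card (sqs H) := by
    rw [← hQ, ← Nat.card_coe_set_eq]
    exact card_Z_le Q
  have hH0 : H0.ncard ≤ Z.ncard := Set.ncard_le_ncard hsub (Set.toFinite _)
  have hr : Nat.card p.range ≤ Nat.card E := Subgroup.card_le_card_group _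
  have hpos0 : 0 < H0.ncard := (Set.ncard_pos (Set.toFinite _)).2 ⟨0, H.one_mem⟩
  have hposE : 0 < Nat.card E := Nat.card_pos
  have hlt : Nat.card H < Z.ncard * Nat.card E := by
    rw [hcard]
    by_cases h1 : p.range = ⊤
    · by_cases h2 : H0 = Z
      · exfalso
        apply hH
        apply eq_top_of_full H
        · intro t
          obtain ⟨g, hg⟩ : t ∈ p.range := h1 ▸ Subgroup.mem_top t
          refine ⟨g.1.x, ?_⟩
          have : g.1.t = t := hg
          rw [← this]
          exact g.2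
        · intro z hz
          have : z ∈ Z := hz
          rw [← h2] at this
          exact this
      · have : H0.ncard < Z.ncard :=
          Set.ncard_lt_ncard (Set.ssubset_iff_subset_ne.2 ⟨hsub, h2⟩) (Set.toFinite _)
        exact Nat.mul_lt_mul_of_lt_of_le this hr hposE
    · have : Nat.card p.range < Nat.card E :=
        lt_of_le_of_ne hr fun e => h1 (Subgroup.eq_top_of_card_eq _ e)
      exact Nat.mul_lt_mul_of_le_of_lt hH0 this (hpos0.trans_le hH0)
  have hidx := (sqs H).card_mul_index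
  have hposQ : 0 < Nat.card (sqs H) := Nat.card_pos
  have h3 : (sqs H).index < Nat.card (dbl A).ker * Nat.card E := by
    apply Nat.lt_of_mul_lt_mul_left (a := Nat.card (sqs H))
    rw [hidx]
    calc Nat.card H < Z.ncard * Nat.card E := hlt
      _ ≤ Nat.card (dbl A).ker * Nat.card (sqs H) * Nat.card E := Nat.mul_le_mul_right _ hZ
      _ = _ := by ring
  have h4 := two_pow_rank_le ((isPGroup S).to_subgroup H)
  have h5 := card_le_rank S
  exact (Nat.pow_lt_pow_iff_right (by norm_num : 1 < 2)).1 (h4.trans_lt (h3.trans_le h5))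

end Gp

end Pool.Agent.Lib.MP_d40034_al
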