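import Mathlib
import Pool.Agent.Lib.MP_d40034_al.Abstract

namespace Pool.Agent.Lib.MP_d40034_al

/-- Generation lemma in a commutative ring with sign-changing endomorphisms. -/
theorem gen_aux {R ι : Type} [CommRing R] [Fintype ι] [DecidableEq ι] (X : ι → R)
    (ρ : ι → R →+* R) (h1 : ∀ j, ρ j (X j) = -X j) (h2 : ∀ i j, i ≠ j → ρ j (X i) = X i)
    (h3 : 2 * ∏ i, (1 + X i) = 0) (h4 : Subring.closure (Set.range X) = ⊤)
    (K : AddSubgroup R) (hK0 : ∀ z, 2 * z = 0 → z ∈ K)
    (hK : ∀ y ∈ K, ∀ j z, 2 * z = ρ j y - y → z ∈ K) : K = ⊤ := by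
  have sign : ∀ j, ∀ u ∈ Submonoid.closure (Set.range X), ρ j u = u ∨ ρ j u = -u := by
    intro j u hu
    induction hu using Submonoid.closure_induction with
    | mem x hx =>
      obtain ⟨i, rfl⟩ := hx
      by_cases h : i = j
      · right; rw [h, h1]
      · left; exact h2 i j h
    | one => left; exact map_one _
    | mul x y _ _ hx hy =>
      rw [map_mul]
      rcases hx with hx | hx <;> rcases hy with hy | hy <;> rw [hx, hy] <;> simp
  have main : ∀ C : Finset ι, ∀ u ∈ Submonoid.closure (Set.range X),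
      u * ∏ i ∈ Cᶜ, (1 + X i) ∈ K := by
    intro C
    induction C using Finset.induction_on with
    | empty =>
      intro u _
      apply hK0
      rw [Finset.compl_empty, mul_left_comm, h3, mul_zero]
    | insert j C hj ih =>
      intro u hu
      have hC : Cᶜ = insert j (insert j C)ᶜ := by
        ext i
        by_cases h : i = j <;> simp [h, hj]
      have hy := ih u hu
      rw [hC, Finset.prod_insert (by simp)] at hy
      set P := ∏ i ∈ (insert j C)ᶜ, (1 + X i) with hP
      have hρP : ρ j P = P := by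
        rw [hP, map_prod]
        refine Finset.prod_congr rfl fun i hi => ?_
        have : i ≠ j := by
          rintro rfl
          simp at hi
        rw [map_add, map_one, h2 i j this]
      rcases sign j u hu with hs | hs
      · have := hK _ hy j (-(u * X j * P)) (by
          rw [map_mul, map_mul, map_add, map_one, hs, h1, hρP]; ring)
        have e : u * P = u * ((1 + X j) * P) + -(u * X j * P) := by ring
        rw [e]
        exact K.add_mem hy this
      · have := hK _ hy j (-(u * P)) (by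
          rw [map_mul, map_mul, map_add, map_one, hs, h1, hρP]; ring)
        simpa using this
  rw [eq_top_iff]
  rintro x -
  have hx : x ∈ Subring.closure (Set.range X) := h4 ▸ Subring.mem_top x
  rw [Subring.mem_closure_iff] at hx
  refine (AddSubgroup.closure_le K).2 ?_ hx
  intro u hu
  simpa using main Finset.univ u hu

/-- The elementary abelian group. -/
abbrev EE (r : ℕ) : Type := Fin r → ℤˣ

abbrev FF (r : ℕ) : Type := EE r → ZMod (2 ^ (r + 1))

def χ (r : ℕ) (i : Fin r) : FF r := fun s => (((s i : ℤˣ) : ℤ) : ZMod (2 ^ (r + 1)))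

def RR (r : ℕ) : Subring (FF r) := Subring.closure (Set.range (χ r))

def τ (r : ℕ) (t : EE r) : FF r →+* FF r :=
  RingHom.pi fun s => Pi.evalRingHom (fun _ : EE r => ZMod (2 ^ (r + 1))) (s * t)

theorem τ_apply (r : ℕ) (t : EE r) (f : FF r) (s : EE r) : τ r t f s = f (s * t) := rfl

theorem τ_χ_one (r : ℕ) (t : EE r) (i : Fin r) (h : t i = 1) : τ r t (χ r i) = χ r i := by
  funext s
  simp [τ_apply, χ, h]

theorem τ_χ_neg (r : ℕ) (t : EE r) (i : Fin r) (h : t i = -1) : τ r t (χ r i) = -χ r i := by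
  funext s
  simp [τ_apply, χ, h]

theorem τ_triv (r : ℕ) (t : EE r) : ∀ x ∈ RR r, ∃ w ∈ RR r, τ r t x = x + 2 * w := by
  intro x hx
  induction hx using Subring.closure_induction with
  | mem x hx =>
    obtain ⟨i, rfl⟩ := hx
    rcases Int.units_eq_one_or (t i) with h | h
    · exact ⟨0, zero_mem _, by rw [τ_χ_one r t i h]; ring⟩
    · exact ⟨-χ r i, neg_mem (Subring.subset_closure ⟨i, rfl⟩), by rw [τ_χ_neg r t i h]; ring⟩
  | zero => exact ⟨0, zero_mem _, by simp⟩
  | one => exact ⟨0, zero_mem _, by simp⟩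
  | add x y _ _ hx hy =>
    obtain ⟨v, hv, hx⟩ := hx
    obtain ⟨w, hw, hy⟩ := hy
    exact ⟨v + w, add_mem hv hw, by rw [map_add, hx, hy]; ring⟩
  | neg x _ hx =>
    obtain ⟨v, hv, hx⟩ := hx
    exact ⟨-v, neg_mem hv, by rw [map_neg, hx]; ring⟩
  | mul x y hx' hy' hx hy =>
    obtain ⟨v, hv, hx⟩ := hx
    obtain ⟨w, hw, hy⟩ := hy
    refine ⟨x * w + v * y + (v * w + v * w), ?_, by rw [map_mul, hx, hy]; ring⟩
    exact add_mem (add_mem (mul_mem hx' hw) (mul_mem hv hy'))
      (add_mem (mul_mem hv hw) (mul_mem hv hw))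

theorem τ_mem (r : ℕ) (t : EE r) : ∀ x ∈ RR r, τ r t x ∈ RR r := by
  intro x hx
  obtain ⟨w, hw, h⟩ := τ_triv r t x hx
  rw [h, two_mul]
  exact add_mem hx (add_mem hw hw)

def ρ (r : ℕ) (t : EE r) : RR r →+* RR r := (τ r t).restrict (RR r) (RR r) (τ_mem r t)

theorem ρ_coe (r : ℕ) (t : EE r) (x : RR r) : (ρ r t x : FF r) = τ r t x := rfl

def XX (r : ℕ) (i : Fin r) : RR r := ⟨χ r i, Subring.subset_closure ⟨i, rfl⟩⟩

theorem closure_XX (r : ℕ) : Subring.closure (Set.range (XX r)) = ⊤ := by
  rw [eq_top_iff]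
  rintro ⟨x, hx⟩ -
  induction hx using Subring.closure_induction with
  | mem x hx =>
    obtain ⟨i, rfl⟩ := hx
    exact Subring.subset_closure ⟨i, rfl⟩
  | zero => exact zero_mem _
  | one => exact one_mem _
  | add x y _ _ hx hy => exact add_mem hx hy
  | neg x _ hx => exact neg_mem hx
  | mul x y _ _ hx hy => exact mul_mem hx hy

theorem two_pow_zero (r : ℕ) : (2 : ZMod (2 ^ (r + 1))) ^ (r + 1) = 0 := by
  have := ZMod.natCast_self (2 ^ (r + 1))
  rwa [Nat.cast_pow, Nat.cast_ofNat] at this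

theorem two_pow_ne_zero (r : ℕ) : (2 : ZMod (2 ^ (r + 1))) ^ r ≠ 0 := by
  intro h
  have h' : ((2 ^ r : ℕ) : ZMod (2 ^ (r + 1))) = 0 := by simpa using h
  rw [ZMod.natCast_eq_zero_iff] at h'
  have := Nat.le_of_dvd (by positivity) h'
  have h2 : 2 ^ r < 2 ^ (r + 1) := Nat.pow_lt_pow_right (by norm_num) (by omega)
  omega

theorem prod_XX (r : ℕ) : 2 * ∏ i, (1 + XX r i) = 0 := by
  apply Subtype.ext
  funext s
  have e : ((2 * ∏ i, (1 + XX r i) : RR r) : FF r) s = 2 * ∏ i, (1 + χ r i s) := by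
    have := map_prod ((Pi.evalRingHom (fun _ : EE r => ZMod (2 ^ (r + 1))) s).comp (RR r).subtype)
      (fun i => 1 + XX r i) Finset.univ
    exact congrArg (fun z => 2 * z) this
  rw [e]
  show _ = (0 : ZMod (2 ^ (r + 1)))
  by_cases h : ∀ i, s i = 1
  · have : ∀ i, 1 + χ r i s = 2 := by
      intro i
      simp [χ, h i]
      norm_num
    simp only [this, Finset.prod_const, Finset.card_univ, Fintype.card_fin]
    rw [← pow_succ', two_pow_zero]
  · push Not at h
    obtain ⟨i, hi⟩ := h
    have hi' := (Int.units_eq_one_or (s i)).resolve_left hi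
    rw [Finset.prod_eq_zero (Finset.mem_univ i) (by simp [χ, hi']), mul_zero]

theorem RR_gen (r : ℕ) (K : AddSubgroup (RR r))
    (hK : ∀ y ∈ K, ∀ t z, 2 * z = ρ r t y - y → z ∈ K) : K = ⊤ := by
  refine gen_aux (XX r) (fun j => ρ r (Pi.mulSingle j (-1))) ?_ ?_ (prod_XX r) (closure_XX r) K
    ?_ ?_
  · intro j
    exact Subtype.ext (τ_χ_neg r _ j (by simp))
  · intro i j h
    exact Subtype.ext (τ_χ_one r _ i (by simp [h]))
  · intro z hz
    exact hK 0 K.zero_mem 1 z (by simpa using hz)
  · intro y hy j z hz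
    exact hK y hy _ z hz

abbrev AA (r : ℕ) : Type := Matrix (Fin 3) (Fin 3) (RR r)

theorem two_mul_apply (r : ℕ) (w : AA r) (i j : Fin 3) : (2 * w) i j = 2 * w i j := by
  rw [two_mul, two_mul]
  rfl

theorem two_pow_RR (r : ℕ) : (2 : RR r) ^ (r + 1) = 0 := by
  apply Subtype.ext
  funext s
  exact two_pow_zero r

def setup (r : ℕ) : Setup (AA r) (EE r) where
  α t := (ρ r t).mapMatrix
  α_one x := by
    ext i j s
    simp [ρ_coe, τ_apply]
  α_mul s t x := by
    ext i j u
    simp [ρ_coe, τ_apply, mul_assoc]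
  sq t := by
    funext i
    exact Int.units_mul_self (t i)
  nil := ⟨r + 1, by
    have := congrArg (algebraMap (RR r) (AA r)) (two_pow_RR r)
    rwa [map_pow, map_ofNat, map_zero] at this⟩
  triv t x := by
    choose w hw h using fun i j => τ_triv r t (x i j) (x i j).2
    refine ⟨Matrix.of fun i j => ⟨w i j, hw i j⟩, ?_⟩
    ext i j : 1
    rw [Matrix.add_apply, two_mul_apply]
    exact Subtype.ext (h i j)
  gen K hK := by
    have h : ∀ i j : Fin 3, ∀ c, Matrix.single i j c ∈ K := by
      intro i j c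
      let f : RR r →+ AA r := Matrix.singleAddMonoidHom i j
      have : K.comap f = ⊤ := by
        apply RR_gen
        intro y hy t z hz
        refine hK _ hy t (Matrix.single i j z) ?_
        ext a b : 1
        rw [two_mul_apply]
        by_cases hab : i = a ∧ j = b
        · obtain ⟨rfl, rfl⟩ := hab
          simpa [f] using hz
        · simp [f, Matrix.single, hab]
      have hc : c ∈ K.comap f := this ▸ AddSubgroup.mem_top c
      exact hc
    rw [eq_top_iff]
    rintro x -
    rw [Matrix.matrix_eq_sum_single x]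
    exact sum_mem fun i _ => sum_mem fun j _ => h i j _

def ex : ℕ → ℕ
  | 0 => 0
  | k + 1 => 2 * ex k + 2

theorem mem_derived (r k : ℕ) : ∀ i j : Fin 3, i ≠ j →
    Gp.ι (setup r) (Matrix.single i j (2 ^ ex k)) ∈ derivedSeries (Gp (setup r)) k := by
  induction k with
  | zero => intro i j _; exact Subgroup.mem_top _
  | succ k ih =>
    intro i j hij
    obtain ⟨l, hil, hlj⟩ : ∃ l : Fin 3, i ≠ l ∧ l ≠ j := by
      revert i j
      decide
    have h := Subgroup.commutator_mem_commutator (ih i l hil) (ih l j hlj)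
    rw [derivedSeries_succ]
    convert h using 1
    set c : RR r := 2 ^ ex k
    have e : (2 : RR r) ^ ex (k + 1) = 4 * (c * c) := by
      simp only [ex, c]
      ring
    have e4 : ∀ d : RR r, (4 : AA r) * Matrix.single i j d = Matrix.single i j (4 * d) := by
      intro d
      have : (4 : AA r) = algebraMap (RR r) (AA r) 4 := (map_ofNat _ 4).symm
      rw [this, ← Algebra.smul_def, Matrix.smul_single, smul_eq_mul]
    rw [commutatorElement_def, eq_mul_inv_iff_mul_eq, eq_mul_inv_iff_mul_eq, mul_assoc,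
      Gp.ι_mul, Gp.ι_mul, Gp.ι_mul, e, Matrix.single_mul_single_same,
      Matrix.single_mul_single_of_ne _ _ _ _ hij.symm, e4]
    congr 1
    rw [mul_zero, add_zero, mul_add, Matrix.single_mul_single_of_ne _ _ _ _ hlj.symm,
      Matrix.single_mul_single_of_ne _ _ _ _ hij.symm]
    simp only [add_zero, mul_zero]
    abel

theorem derived_ne_bot (k : ℕ) : derivedSeries (Gp (setup (ex k))) k ≠ ⊥ := by
  intro h
  have h1 := mem_derived (ex k) k 0 1 (by decide)
  rw [h, Subgroup.mem_bot] at h1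
  have h2 : (Matrix.single (0 : Fin 3) (1 : Fin 3) (2 ^ ex k) : AA (ex k)) = 0 :=
    congrArg Gp.x h1
  have h3 := congrFun (congrFun h2 0) 1
  rw [Matrix.single_apply_same] at h3
  have h4 := congrFun (congrArg Subtype.val h3) 1
  exact two_pow_ne_zero (ex k) h4

theorem main : ¬ (∃ n : ℕ, ∀ (G : Type) [Group G] [Finite G], IsPGroup 2 G →
      (∀ H : Subgroup G, H ≠ ⊤ → Group.rank H < Group.rank G) →
      derivedSeries G n = ⊥) := by
  rintro ⟨n, hn⟩
  exact derived_ne_bot n (hn (Gp (setup (ex n))) (Gp.isPGroup _) fun H hH => Gp.rank_lt H hH)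

end Pool.Agent.Lib.MP_d40034_al
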